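import Pool.Agent.MP_e4304e_gt.Defs

/-! Invariants of finite type of virtual string links. -/

namespace Pool.Agent.MP_e4304e_gt

/-- The virtual string link represented by a Gauss diagram. -/
def linkOf {m : ℕ} (D : Diagram m) (h : IsGauss D) : VirtualStringLink m := Quot.mk _ ⟨D, h⟩

theorem IsGauss.delete {m : ℕ} {D : Diagram m} (h : IsGauss D) (S : List Arrow) :
    IsGauss (delete D S) where
  nodup i := (h.nodup i).filter _
  disjoint i j e h1 h2 := h.disjoint i j e (List.mem_of_mem_filter h1) (List.mem_of_mem_filter h2)
  paired a := by
    simp only [MP_e4304e_gt.delete, List.mem_filter, exists_and_right, h.paired a]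
    rfl

/-- Finite type at most `k` in the sense of Goussarov, Polyak and Viro: the invariant vanishes on
every diagram with more than `k` semi-virtual crossings, a semi-virtual crossing standing for the
difference of the real crossing and the virtual one (the arrow deleted). -/
def IsFiniteType {m : ℕ} (k : ℕ) (v : VirtualStringLink m → ℤ) : Prop :=
  ∀ (D : Diagram m) (h : IsGauss D) (T : Finset Arrow), k < T.card →
    ∑ S ∈ T.powerset, (-1) ^ S.card * v (linkOf (delete D S.toList) (h.delete _)) = 0

end Pool.Agent.MP_e4304e_gt
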